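import Mathlib

/-!
# Translative covering of the unit square by rectangles of total area 3

Every finite or infinite family of rectangles with sides parallel to the axes, with all side
lengths at most `1`, with a side length equal to `1` and with total area at least `3` covers the
unit square by translates of its members.

Idea: one rectangle of width `1` and height `H` covers a strip. Of the other rectangles finitely
many have total area at least `1 + 2 (1 - H)`. Sort them by decreasing height and fill rows: a row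
is finished as soon as its total width is at least `1`. If `B` is the largest height in a row and
`B'` the height of its last rectangle, then the rectangles of the row cover a strip of height `B'`,
and they have area at most `B + B'`, while the heights of the next row are at most `B'`. So a
family sorted by height with heights at most `B` and with area at least `B + 2 T` covers a strip of
height `T`.
-/

set_option autoImplicit false

namespace Pool.Agent.Results.MP_6800d9_co.AreaThreeCovers

open Set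

/-- The rectangle `[0,a] × [0,b]` (width `a`, height `b`). -/
def rect (a b : ℝ) : Set (ℝ × ℝ) := Icc 0 a ×ˢ Icc 0 b

/-- The translate of the set `R` by the vector `v`. -/
def translate (v : ℝ × ℝ) (R : Set (ℝ × ℝ)) : Set (ℝ × ℝ) := (fun p => p + v) '' R

/-- The unit square. -/
def unitSquare : Set (ℝ × ℝ) := Icc 0 1 ×ˢ Icc 0 1

/-- The rectangles with widths `w i` and heights `h i`, `i ∈ ι`, cover the set `S` by
translations: there are translation vectors `v i` such that `S` is contained in the union of the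
translates of the rectangles. -/
def Covers {ι : Type} (w h : ι → ℝ) (S : Set (ℝ × ℝ)) : Prop :=
  ∃ v : ι → ℝ × ℝ, S ⊆ ⋃ i, translate (v i) (rect (w i) (h i))

variable {ι : Type}

theorem mem_translate_rect {v p : ℝ × ℝ} {a b : ℝ} :
    p ∈ translate v (rect a b) ↔
      v.1 ≤ p.1 ∧ p.1 ≤ v.1 + a ∧ v.2 ≤ p.2 ∧ p.2 ≤ v.2 + b := by
  constructor
  · rintro ⟨q, ⟨⟨h1, h2⟩, h3, h4⟩, rfl⟩
    simp only [Prod.fst_add, Prod.snd_add]
    refine ⟨?_, ?_, ?_, ?_⟩ <;> linarith
  · rintro ⟨h1, h2, h3, h4⟩
    refine ⟨p - v, ⟨⟨?_, ?_⟩, ?_, ?_⟩, by simp⟩ <;>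
      simp only [Prod.fst_sub, Prod.snd_sub] <;> linarith

/-- the rectangles with indices in the list `L` cover the box `[x0,x1] × [y0,y1]` -/
def Cov (w h : ι → ℝ) (L : List ι) (x0 x1 y0 y1 : ℝ) : Prop :=
  ∃ v : ι → ℝ × ℝ, ∀ p : ℝ × ℝ, x0 ≤ p.1 → p.1 ≤ x1 → y0 ≤ p.2 → p.2 ≤ y1 →
    ∃ i ∈ L, (v i).1 ≤ p.1 ∧ p.1 ≤ (v i).1 + w i ∧ (v i).2 ≤ p.2 ∧ p.2 ≤ (v i).2 + h i

theorem Cov.shift {w h : ι → ℝ} {L : List ι} {x0 x1 y0 y1 : ℝ} (H : Cov w h L x0 x1 y0 y1)
    (a b : ℝ) : Cov w h L (x0 + a) (x1 + a) (y0 + b) (y1 + b) := by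
  obtain ⟨v, hv⟩ := H
  refine ⟨fun i => v i + (a, b), fun p h1 h2 h3 h4 => ?_⟩
  obtain ⟨i, hi, g1, g2, g3, g4⟩ := hv (p - (a, b)) (by simp; linarith) (by simp; linarith)
    (by simp; linarith) (by simp; linarith)
  simp only [Prod.fst_sub, Prod.snd_sub] at g1 g2 g3 g4
  refine ⟨i, hi, ?_, ?_, ?_, ?_⟩ <;> simp only [Prod.fst_add, Prod.snd_add] <;> linarith

/-- two disjoint lists -/
theorem Cov.append {w h : ι → ℝ} {A B : List ι} (hd : List.Disjoint A B)
    {x0 x1 y0 y1 a0 a1 b0 b1 c0 c1 d0 d1 : ℝ}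
    (HA : Cov w h A x0 x1 y0 y1) (HB : Cov w h B a0 a1 b0 b1)
    (hc : ∀ p : ℝ × ℝ, c0 ≤ p.1 → p.1 ≤ c1 → d0 ≤ p.2 → p.2 ≤ d1 →
      (x0 ≤ p.1 ∧ p.1 ≤ x1 ∧ y0 ≤ p.2 ∧ p.2 ≤ y1) ∨ (a0 ≤ p.1 ∧ p.1 ≤ a1 ∧ b0 ≤ p.2 ∧ p.2 ≤ b1)) :
    Cov w h (A ++ B) c0 c1 d0 d1 := by
  classical
  obtain ⟨v, hv⟩ := HA
  obtain ⟨u, hu⟩ := HB
  refine ⟨fun i => if i ∈ A then v i else u i, fun p h1 h2 h3 h4 => ?_⟩
  rcases hc p h1 h2 h3 h4 with ⟨g1, g2, g3, g4⟩ | ⟨g1, g2, g3, g4⟩
  · obtain ⟨i, hi, hh⟩ := hv p g1 g2 g3 g4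
    refine ⟨i, List.mem_append_left _ hi, ?_⟩
    simpa only [if_pos hi] using hh
  · obtain ⟨i, hi, hh⟩ := hu p g1 g2 g3 g4
    refine ⟨i, List.mem_append_right _ hi, ?_⟩
    have : i ∉ A := fun h' => hd h' hi
    simpa only [if_neg this] using hh

/-- a row -/
theorem cov_row {w h : ι → ℝ} (t : ℝ) (L : List ι) :
    L.Nodup → L ≠ [] → (∀ i ∈ L, t ≤ h i) → Cov w h L 0 (L.map w).sum 0 t := by
  induction L with
  | nil => intro _ h; exact absurd rfl h
  | cons a L ih =>
    intro hn _ hh
    have ha : Cov w h [a] 0 (w a) 0 t := by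
      refine ⟨fun _ => (0, 0), fun p h1 h2 h3 h4 => ⟨a, by simp, ?_⟩⟩
      have := hh a (by simp)
      refine ⟨h1, by simpa using h2, h3, ?_⟩
      simp only [zero_add]
      linarith
    rcases eq_or_ne L [] with rfl | hL
    · simpa using ha
    · have hn' := List.nodup_cons.1 hn
      have h1 := (ih hn'.2 hL (fun i hi => hh i (List.mem_cons_of_mem _ hi))).shift (w a) 0
      have hd : List.Disjoint [a] L := by
        intro x hx hx'
        rw [List.mem_singleton] at hx
        exact hn'.1 (hx ▸ hx')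
      have := Cov.append hd ha h1 (c0 := 0) (c1 := (List.map w (a :: L)).sum) (d0 := 0) (d1 := t) (by
        intro p g1 g2 g3 g4
        rcases le_total p.1 (w a) with h5 | h5
        · left; exact ⟨g1, h5, g3, g4⟩
        · right
          rw [List.map_cons, List.sum_cons] at g2
          refine ⟨by linarith, by linarith, by linarith, by linarith⟩)
      simpa using this

/-- the shortest initial segment of total width at least `1` -/
theorem exists_split {w : ι → ℝ} (L : List ι) (s : ℝ) (hs : 0 < s) (hL : s ≤ (L.map w).sum) :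
    ∃ A a B, L = A ++ a :: B ∧ (A.map w).sum < s ∧ s ≤ (A.map w).sum + w a := by
  induction L generalizing s with
  | nil => simp at hL; linarith
  | cons a L ih =>
    rw [List.map_cons, List.sum_cons] at hL
    rcases le_or_gt s (w a) with h | h
    · exact ⟨[], a, L, rfl, by simpa using hs, by simpa using h⟩
    · obtain ⟨A, b, B, h1, h2, h3⟩ := ih (s - w a) (by linarith) (by linarith)
      refine ⟨a :: A, b, B, by rw [h1]; rfl, ?_, ?_⟩
      · rw [List.map_cons, List.sum_cons]; linarith
      · rw [List.map_cons, List.sum_cons]; linarith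

theorem area_le {w h : ι → ℝ} (hw : ∀ i, 0 < w i) (B : ℝ) (L : List ι) (hB : ∀ i ∈ L, h i ≤ B) :
    (L.map fun i => w i * h i).sum ≤ B * (L.map w).sum := by
  induction L with
  | nil => simp
  | cons a L ih =>
    simp only [List.map_cons, List.sum_cons]
    have h1 := ih (fun i hi => hB i (List.mem_cons_of_mem _ hi))
    have h2 := mul_le_mul_of_nonneg_left (hB a (by simp)) (hw a).le
    linarith

/-- **Shelves.** -/
theorem shelf {w h : ι → ℝ} (hw : ∀ i, 0 < w i) (hw1 : ∀ i, w i ≤ 1) (hh : ∀ i, 0 < h i)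
    (n : ℕ) : ∀ (L : List ι) (B T : ℝ), L.length ≤ n → L.Nodup →
      L.Pairwise (fun i j => h j ≤ h i) → (∀ i ∈ L, h i ≤ B) → 0 < B → 0 < T →
      B + 2 * T ≤ (L.map fun i => w i * h i).sum → Cov w h L 0 1 0 T := by
  induction n with
  | zero =>
    intro L B T hl _ _ _ hB hT hA
    have : L = [] := List.length_eq_zero_iff.1 (by omega)
    subst this
    simp at hA
    linarith
  | succ n ih =>
    intro L B T hl hnd hs hB hB0 hT hA
    have hw1' : 1 ≤ (L.map w).sum := by
      by_contra hc
      push Not at hc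
      have := area_le hw B L hB
      nlinarith
    obtain ⟨A, a, R, rfl, h1, h2⟩ := exists_split L 1 one_pos hw1'
    -- the row
    have hrow : Cov w h (A ++ [a]) 0 1 0 (h a) := by
      have hnd' : (A ++ [a]).Nodup := by
        refine List.Nodup.sublist ?_ hnd
        exact List.Sublist.append_left (by simp) A
      have hge : ∀ i ∈ A ++ [a], h a ≤ h i := by
        intro i hi
        rcases List.mem_append.1 hi with hi | hi
        · have := (List.pairwise_append.1 hs).2.2 i hi a (by simp)
          exact this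
        · rw [List.mem_singleton] at hi
          rw [hi]
      obtain ⟨v, hv⟩ := cov_row (h a) (A ++ [a]) hnd' (by simp) hge
      refine ⟨v, fun p g1 g2 g3 g4 => hv p g1 ?_ g3 g4⟩
      rw [List.map_append, List.sum_append]
      simp only [List.map_cons, List.map_nil, List.sum_cons, List.sum_nil, add_zero]
      linarith
    rcases le_or_gt T (h a) with hTa | hTa
    · obtain ⟨v, hv⟩ := hrow
      refine ⟨v, fun p g1 g2 g3 g4 => ?_⟩
      obtain ⟨i, hi, hh'⟩ := hv p g1 g2 g3 (g4.trans hTa)
      refine ⟨i, ?_, hh'⟩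
      rcases List.mem_append.1 hi with hi | hi
      · exact List.mem_append_left _ hi
      · rw [List.mem_singleton] at hi
        rw [hi]
        simp
    · -- the rest
      have hpw := List.pairwise_append.1 hs
      have hR : Cov w h R 0 1 0 (T - h a) := by
        apply ih R (h a) (T - h a)
        · simp only [List.length_append, List.length_cons] at hl
          omega
        · exact ((List.nodup_append.1 hnd).2.1 |> List.nodup_cons.1).2
        · exact (List.pairwise_cons.1 hpw.2.1).2
        · exact (List.pairwise_cons.1 hpw.2.1).1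
        · exact hh a
        · linarith
        · rw [List.map_append, List.sum_append, List.map_cons, List.sum_cons] at hA
          have h3 := area_le hw B A (fun i hi => hB i (List.mem_append_left _ hi))
          have h4 : w a * h a ≤ h a := by
            have := mul_le_mul_of_nonneg_right (hw1 a) (hh a).le
            linarith
          have h5 : B * (A.map w).sum ≤ B := by nlinarith
          linarith
      have hR' := hR.shift 0 (h a)
      have hd : List.Disjoint (A ++ [a]) R := by
        have e : A ++ a :: R = (A ++ [a]) ++ R := by simp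
        rw [e] at hnd
        exact List.disjoint_of_nodup_append hnd
      have := Cov.append hd hrow hR' (c0 := 0) (c1 := 1) (d0 := 0) (d1 := T) (by
        intro p g1 g2 g3 g4
        rcases le_total p.2 (h a) with h5 | h5
        · left; exact ⟨g1, g2, g3, h5⟩
        · right; refine ⟨by linarith, by linarith, by linarith, by linarith⟩)
      simpa using this

/-- some rectangle has width `1` -/
theorem main_width {ι : Type} (w h : ι → ℝ) (hw : ∀ i, 0 < w i) (hw1 : ∀ i, w i ≤ 1)
    (hh : ∀ i, 0 < h i) (hh1 : ∀ i, h i ≤ 1) (i0 : ι) (hi0 : w i0 = 1)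
    (hA : (3 : ENNReal) ≤ ∑' i, ENNReal.ofReal (w i * h i)) :
    ∃ (L : List ι), Cov w h L 0 1 0 1 := by
  classical
  have hrow0 : Cov w h [i0] 0 1 0 (h i0) := by
    refine ⟨fun _ => (0, 0), fun p h1 h2 h3 h4 => ⟨i0, by simp, h1, ?_, h3, ?_⟩⟩
    · simp only [hi0]; linarith
    · simpa using h4
  rcases eq_or_lt_of_le (hh1 i0) with h1 | h1
  · rw [h1] at hrow0
    exact ⟨[i0], hrow0⟩
  -- a finite set of indices with large area
  have hpos : ∀ i, 0 ≤ w i * h i := fun i => (mul_pos (hw i) (hh i)).le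
  obtain ⟨s, hs⟩ : ∃ s : Finset ι, ENNReal.ofReal (3 - h i0) < ∑ i ∈ s, ENNReal.ofReal (w i * h i) := by
    have h2 : ENNReal.ofReal (3 - h i0) < ∑' i, ENNReal.ofReal (w i * h i) := by
      refine lt_of_lt_of_le ?_ hA
      have : (3 : ENNReal) = ENNReal.ofReal 3 := by simp
      rw [this]
      exact (ENNReal.ofReal_lt_ofReal_iff (by norm_num)).2 (by linarith [hh i0])
    rw [ENNReal.tsum_eq_iSup_sum] at h2
    exact lt_iSup_iff.1 h2
  have hs' : 3 - h i0 < ∑ i ∈ s, w i * h i := by
    rw [← ENNReal.ofReal_sum_of_nonneg (fun i _ => hpos i)] at hs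
    exact (ENNReal.ofReal_lt_ofReal_iff_of_nonneg (by linarith)).1 hs
  have hs2 : 1 + 2 * (1 - h i0) ≤ ∑ i ∈ s.erase i0, w i * h i := by
    by_cases hmem : i0 ∈ s
    · have := Finset.add_sum_erase s (fun i => w i * h i) hmem
      simp only [hi0, one_mul] at this
      linarith
    · rw [Finset.erase_eq_of_notMem hmem]
      linarith [hh i0]
  -- sort by height
  let r : ι → ι → Prop := fun i j => h j ≤ h i
  have : Std.Total r := ⟨fun i j => le_total (h j) (h i)⟩
  have : IsTrans ι r := ⟨fun i j k h1 h2 => le_trans h2 h1⟩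
  let L := (s.erase i0).toList.insertionSort r
  have hperm : L.Perm (s.erase i0).toList := List.perm_insertionSort r _
  have hnd : L.Nodup := hperm.nodup_iff.2 (Finset.nodup_toList _)
  have hsort : L.Pairwise r := List.pairwise_insertionSort r _
  have hsum : (L.map fun i => w i * h i).sum = ∑ i ∈ s.erase i0, w i * h i := by
    rw [(hperm.map _).sum_eq]
    exact Finset.sum_map_toList _ _
  have hcov := shelf hw hw1 hh L.length L 1 (1 - h i0) le_rfl hnd hsort (fun i _ => hh1 i)
    one_pos (by linarith) (by rw [hsum]; exact hs2)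
  have hd : List.Disjoint [i0] L := by
    intro x hx hx'
    rw [List.mem_singleton] at hx
    subst hx
    have := hperm.mem_iff.1 hx'
    simp at this
  refine ⟨[i0] ++ L, Cov.append hd hrow0 (hcov.shift 0 (h i0)) ?_⟩
  intro p g1 g2 g3 g4
  rcases le_total p.2 (h i0) with h5 | h5
  · left; exact ⟨g1, g2, g3, h5⟩
  · right; refine ⟨by linarith, by linarith, by linarith, by linarith⟩

/-- **Answer to the question of Moser: yes.** Let `R i`, `i ∈ ι`, be a finite or infinite family of
rectangles with sides parallel to the axes, with widths `w i` and heights `h i` in `(0, 1]`, the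
largest side length being equal to `1`. If the total area is at least `3`, then the unit square is
covered by translates of the rectangles. -/
theorem result (ι : Type) (w h : ι → ℝ)
    (hw : ∀ i, 0 < w i ∧ w i ≤ 1) (hh : ∀ i, 0 < h i ∧ h i ≤ 1)
    (h1 : ∃ i, w i = 1 ∨ h i = 1)
    (hA : (3 : ENNReal) ≤ ∑' i, ENNReal.ofReal (w i * h i)) :
    Covers w h unitSquare := by
  obtain ⟨i0, hi0 | hi0⟩ := h1
  · obtain ⟨L, v, hv⟩ := main_width w h (fun i => (hw i).1) (fun i => (hw i).2)
      (fun i => (hh i).1) (fun i => (hh i).2) i0 hi0 hA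
    refine ⟨v, fun p hp => ?_⟩
    obtain ⟨⟨g1, g2⟩, g3, g4⟩ := hp
    obtain ⟨i, _, hi⟩ := hv p g1 g2 g3 g4
    exact mem_iUnion.2 ⟨i, mem_translate_rect.2 hi⟩
  · have hA' : (3 : ENNReal) ≤ ∑' i, ENNReal.ofReal (h i * w i) := by
      simpa only [mul_comm] using hA
    obtain ⟨L, v, hv⟩ := main_width h w (fun i => (hh i).1) (fun i => (hh i).2)
      (fun i => (hw i).1) (fun i => (hw i).2) i0 hi0 hA'
    refine ⟨fun i => ((v i).2, (v i).1), fun p hp => ?_⟩
    obtain ⟨⟨g1, g2⟩, g3, g4⟩ := hp
    obtain ⟨i, _, k1, k2, k3, k4⟩ := hv (p.2, p.1) g3 g4 g1 g2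
    exact mem_iUnion.2 ⟨i, mem_translate_rect.2 ⟨k3, k4, k1, k2⟩⟩

end Pool.Agent.Results.MP_6800d9_co.AreaThreeCovers
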